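import Pool.Agent.V11232.AN.Main

namespace Pool.Agent.Results.MP_8c22a7_lc.PolynomialLanguage

open Pool.Agent.V11232.AN Filter Polynomial

/-- The gaps of the values of a polynomial of degree at least two tend to infinity. -/
theorem gaps (P : ℝ[X]) (f : ℕ → ℕ) (hP : ∀ n : ℕ, P.eval (n : ℝ) = f n)
    (hd : 2 ≤ P.natDegree) : ∀ G : ℕ, ∃ M, ∀ m, M ≤ m → f m + G < f (m + 1) := by
  intro G
  set Q : ℝ[X] := P.comp (X + 1) - P with hQ
  have hQe : ∀ n : ℕ, Q.eval (n : ℝ) = (f (n + 1) : ℝ) - f n := by
    intro n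
    rw [hQ, eval_sub, eval_comp, eval_add, eval_X, eval_one, hP n, ← hP (n + 1)]
    push_cast
    rfl
  rcases le_or_gt Q.degree 0 with hdeg | hdeg
  · exfalso
    obtain hc := eq_C_of_degree_le_zero hdeg
    set c := Q.coeff 0 with hcdef
    have h1 : ∀ n : ℕ, (f n : ℝ) = f 0 + c * n := by
      intro n
      induction n with
      | zero => simp
      | succ n ih =>
        have h2 := hQe n
        rw [hc, eval_C] at h2
        push_cast
        linarith
    have h2 : P = C (f 0 : ℝ) + C c * X := by
      refine eq_of_infinite_eval_eq _ _ ?_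
      refine Set.infinite_of_injective_forall_mem (f := fun n : ℕ => (n : ℝ))
        Nat.cast_injective ?_
      intro n
      show P.eval (n : ℝ) = (C (f 0 : ℝ) + C c * X).eval (n : ℝ)
      rw [hP n, h1 n]
      simp
    have h3 : P.natDegree ≤ 1 := by
      rw [h2]
      refine (natDegree_add_le _ _).trans ?_
      refine max_le (by simp) ?_
      exact (natDegree_C_mul_le _ _).trans natDegree_X_le
    omega
  · rcases le_total 0 Q.leadingCoeff with hl | hl
    · have ht := (Q.tendsto_atTop_of_leadingCoeff_nonneg hdeg hl).comp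
        tendsto_natCast_atTop_atTop
      have he := ht.eventually (eventually_gt_atTop (G : ℝ))
      obtain ⟨M, hM⟩ := eventually_atTop.mp he
      refine ⟨M, fun m hm => ?_⟩
      have h1 : (G : ℝ) < Q.eval (m : ℝ) := hM m hm
      rw [hQe] at h1
      have h2 : (f m : ℝ) + G < f (m + 1) := by linarith
      exact_mod_cast h2
    · exfalso
      have ht := (Q.tendsto_atBot_of_leadingCoeff_nonpos hdeg hl).comp
        tendsto_natCast_atTop_atTop
      have he := ht.eventually (eventually_lt_atBot (0 : ℝ))
      obtain ⟨M, hM⟩ := eventually_atTop.mp he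
      have h1 : ∀ k, f (M + k) + k ≤ f M := by
        intro k
        induction k with
        | zero => simp
        | succ k ih =>
          have h2 : Q.eval ((M + k : ℕ) : ℝ) < 0 := hM (M + k) (by omega)
          rw [hQe] at h2
          have h3 : (f (M + k + 1) : ℝ) < f (M + k) := by linarith
          have h4 : f (M + k + 1) < f (M + k) := by exact_mod_cast h3
          have h5 : M + (k + 1) = M + k + 1 := by ring
          rw [h5]
          omega
      have := h1 (f M + 1)
      omega

/-- If the set of values of a polynomial of degree at least two is recognisable in an abstract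
numeration system, then the numeration language `L` is polynomial: the number of its words of
length `n` is `O(n ^ deg P)`. -/
theorem result (P : ℚ[X]) (hP : ∀ n : ℕ, ∃ m : ℕ, P.eval (n : ℚ) = m) (hd : 2 ≤ P.natDegree)
    (A : Type) [Fintype A] [LinearOrder A] (L : Language A)
    (hX : (rep L {m : ℕ | ∃ n : ℕ, P.eval (n : ℚ) = m}).IsRegular) :
    (fun n : ℕ => (({w | w ∈ L ∧ w.length = n}.ncard : ℕ) : ℝ)) =O[atTop]
      fun n : ℕ => (n : ℝ) ^ P.natDegree := by
  choose f hf using hP
  have hX' : {m : ℕ | ∃ n : ℕ, P.eval (n : ℚ) = m} = Set.range f := by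
    ext m
    constructor
    · rintro ⟨n, hn⟩
      refine ⟨n, ?_⟩
      have : (f n : ℚ) = m := by rw [← hf n, hn]
      exact_mod_cast this
    · rintro ⟨n, rfl⟩
      exact ⟨n, hf n⟩
  rw [hX'] at hX
  set R : ℝ[X] := P.map (algebraMap ℚ ℝ) with hR
  have hRe : ∀ n : ℕ, R.eval (n : ℝ) = f n := by
    intro n
    have h1 : R.eval ((algebraMap ℚ ℝ) (n : ℚ)) = algebraMap ℚ ℝ (P.eval (n : ℚ)) :=
      eval_map_apply _ _
    rw [hf n] at h1
    simpa using h1
  have hRd : 2 ≤ R.natDegree := by
    rw [hR, natDegree_map]; exact hd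
  obtain ⟨B, M, hB⟩ := bound f (gaps R f hRe hRd) hX
  have hPR : P.natDegree = R.natDegree := (natDegree_map _).symm
  rw [hPR]
  set S : ℝ[X] := R.comp (C (B : ℝ) * X + C ((M : ℝ) + B)) with hS
  have hSe : ∀ n : ℕ, S.eval (n : ℝ) = f (M + B * (n + 1)) := by
    intro n
    rw [hS, eval_comp, ← hRe]
    congr 1
    simp
    ring
  have hSd : S.degree ≤ (X ^ R.natDegree : ℝ[X]).degree := by
    rw [degree_X_pow]
    refine degree_le_of_natDegree_le ?_
    refine natDegree_comp_le.trans ?_
    have : (C (B : ℝ) * X + C ((M : ℝ) + B)).natDegree ≤ 1 := natDegree_linear_le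
    nlinarith
  have hO := (isBigO_atTop_of_degree_le S (X ^ R.natDegree) hSd).comp_tendsto
    tendsto_natCast_atTop_atTop
  refine Asymptotics.IsBigO.trans ?_ (Asymptotics.IsBigO.trans hO ?_)
  · refine Asymptotics.IsBigO.of_bound 1 (Eventually.of_forall fun n => ?_)
    have h1 : {w | w ∈ L ∧ w.length = n}.ncard ≤ {w | w ∈ L ∧ w.length ≤ n}.ncard :=
      Set.ncard_le_ncard (fun w hw => ⟨hw.1, hw.2.le⟩)
        ((finite_le n).subset fun w hw => hw.2)
    have h2 : (({w | w ∈ L ∧ w.length = n}.ncard : ℕ) : ℝ) ≤ S.eval (n : ℝ) := by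
      rw [hSe]
      exact_mod_cast h1.trans (hB n)
    rw [one_mul, Real.norm_eq_abs, Real.norm_eq_abs, abs_of_nonneg (Nat.cast_nonneg _)]
    exact h2.trans (le_abs_self _)
  · refine Asymptotics.IsBigO.of_bound 1 (Eventually.of_forall fun n => ?_)
    simp

end Pool.Agent.Results.MP_8c22a7_lc.PolynomialLanguage
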